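import Pool.Agent.helper79.Tw.Defs
import Pool.Agent.helper78.Tw.A
import Pool.Agent.helper38.Tw.B

/-!
# Pairs of points on the quadratic twists of the curves with a point of order four

Module J of the plan for `MP_157626_nt`: for three pairs `P, Q` of points on the twists of
`y^2 = x (x - 1) (x - s^2)` (or of the isogenous curve), the heights of `P + Q` and `P - Q` differ
by a bounded amount.
-/

namespace H33.TwJ

open WeierstrassCurve WeierstrassCurve.Affine H48.CN H79.Tw H78.Tw Height Polynomial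
open Pool.Agent.helper38.Tw (parallelogram)

/-- Linear arithmetic: if the sum of the heights of `P + Q` and `P - Q` is `2 p + 2 q + O(1)`, both
are at most `(p + q) + O(1)`, then their difference is `O(1)`. -/
theorem core {u v p q a : ℝ} {C0 C1 : ℝ} (h0 : |u + v - 2 * p - 2 * q| ≤ C0)
    (h1 : |p + q - a| ≤ C1) {C2 : ℝ} (hu : u ≤ a + C2) (hv : v ≤ a + C2) :
    |u - v| ≤ C0 + 2 * C1 + 2 * C2 := by
  rw [abs_le] at *
  constructor <;> linarith [h0.1, h0.2, h1.1, h1.2]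

theorem lh_neg_sq (m : ℚ) : logHeight₁ (m ^ 2) = 2 * logHeight₁ m := by
  rw [logHeight₁_pow]; norm_num

/-- the Moebius transformation evaluated at a square -/
theorem mob_sq {a b c d : ℚ} (h : a * d - b * c ≠ 0) :
    ∃ C : ℝ, ∀ x m : ℚ, x * (c * m ^ 2 + d) = a * m ^ 2 + b →
      c * m ^ 2 + d ≠ 0 ∧ |logHeight₁ x - 2 * logHeight₁ m| ≤ C := by
  obtain ⟨C, hC⟩ := height_mobius h
  refine ⟨C, fun x m hx => ?_⟩
  have hd : c * m ^ 2 + d ≠ 0 := by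
    intro h0
    rw [h0, mul_zero] at hx
    apply h
    linear_combination a * h0 + c * hx
  refine ⟨hd, ?_⟩
  have := hC (m ^ 2) hd
  rwa [← hx, mul_div_assoc, div_self hd, mul_one, lh_neg_sq] at this

theorem id34 {s m x N t r : ℚ} (h0 : s ≠ 0) (hx1 : x - 1 ≠ 0)
    (hcur : x * (x - 1) * (x - s ^ 2) = N * t ^ 2)
    (h3 : (1 + s) ^ 2 * x - 4 * s = r ^ 2 * (x - s ^ 2))
    (hK : (1 + s) ^ 2 * m ^ 2 + -(1 - s) ^ 2 ≠ 0)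
    (hxm : x * ((1 + s) ^ 2 * m ^ 2 + -(1 - s) ^ 2) = 4 * s * m ^ 2 + 4 * s) :
    ((1 + s) ^ 2 * m ^ 2 - (1 - s) ^ 2) * ((1 + s) ^ 2 - (1 - s) ^ 2 * m ^ 2) ≠ 0 ∧
    N * ((t * ((1 + s) ^ 2 * r) - t * ((1 - s) ^ 2 * (m * r))) /
        ((1 + s) ^ 2 * (x - 1) - (1 - s) ^ 2 * (x - 1))) ^ 2 - 2 * (1 + s ^ 2) -
        (1 + s) ^ 2 * (x - 1) - (1 - s) ^ 2 * (x - 1) =
      (2 * (1 + s ^ 2) * (1 - s ^ 2) ^ 2) * (1 + m ^ 2) * (1 - m) ^ 2 /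
        (((1 + s) ^ 2 * m ^ 2 - (1 - s) ^ 2) * ((1 + s) ^ 2 - (1 - s) ^ 2 * m ^ 2)) := by
  have hK' : (1 + s) ^ 2 * m ^ 2 - (1 - s) ^ 2 ≠ 0 := by
    intro h; apply hK; rw [← h]; ring
  have a1 : x = 4 * s * (1 + m ^ 2) / ((1 + s) ^ 2 * m ^ 2 - (1 - s) ^ 2) := by
    rw [eq_div_iff hK']; linear_combination hxm
  have a2 : x - 1 = ((1 + s) ^ 2 - (1 - s) ^ 2 * m ^ 2) /
      ((1 + s) ^ 2 * m ^ 2 - (1 - s) ^ 2) := by
    rw [eq_div_iff hK']; linear_combination hxm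
  have a3 : (1 + s) ^ 2 * x - 4 * s = 8 * s * (1 + s ^ 2) /
      ((1 + s) ^ 2 * m ^ 2 - (1 - s) ^ 2) := by
    rw [eq_div_iff hK']; linear_combination (1 + s) ^ 2 * hxm
  have hL : (1 + s) ^ 2 - (1 - s) ^ 2 * m ^ 2 ≠ 0 := by
    intro h; apply hx1; rw [a2, h, zero_div]
  refine ⟨mul_ne_zero hK' hL, ?_⟩
  have e1 : N * ((t * ((1 + s) ^ 2 * r) - t * ((1 - s) ^ 2 * (m * r))) /
        ((1 + s) ^ 2 * (x - 1) - (1 - s) ^ 2 * (x - 1))) ^ 2 =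
      x * ((1 + s) ^ 2 * x - 4 * s) * ((1 + s) ^ 2 - (1 - s) ^ 2 * m) ^ 2 /
        (16 * s ^ 2 * (x - 1)) := by
    have hD : (1 + s) ^ 2 * (x - 1) - (1 - s) ^ 2 * (x - 1) ≠ 0 := by
      have : (1 + s) ^ 2 * (x - 1) - (1 - s) ^ 2 * (x - 1) = 4 * s * (x - 1) := by ring
      rw [this]
      exact mul_ne_zero (mul_ne_zero (by norm_num) h0) hx1
    rw [div_pow, ← mul_div_assoc, div_eq_div_iff (pow_ne_zero 2 hD)
      (mul_ne_zero (mul_ne_zero (by norm_num) (pow_ne_zero 2 h0)) hx1), h3]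
    linear_combination -(r ^ 2 * ((1 + s) ^ 2 - (1 - s) ^ 2 * m) ^ 2 * (16 * s ^ 2 * (x - 1))) * hcur
  rw [e1, a3, a2, a1]
  generalize hKd : (1 + s) ^ 2 * m ^ 2 - (1 - s) ^ 2 = K at hK' ⊢
  generalize hLd : (1 + s) ^ 2 - (1 - s) ^ 2 * m ^ 2 = L at hL ⊢
  field_simp
  rw [← hKd, ← hLd]
  ring

theorem pair_34 {s : ℚ} (h0 : s ≠ 0) (h1 : s ^ 2 ≠ 1)
    (hE : (1 - s ^ 2) ^ 2 * ((2 * (1 + s ^ 2)) ^ 2 - 4 * (1 - s ^ 2) ^ 2) ≠ 0) :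
    ∃ C H : ℝ, ∀ (N t x r₃ r₄ : ℚ) (hN : N ≠ 0), x ≠ 0 → t ≠ 0 →
      x * (x - 1) * (x - s ^ 2) = N * t ^ 2 →
      (1 + s) ^ 2 * x - 4 * s = r₃ ^ 2 * (x - s ^ 2) →
      (1 - s) ^ 2 * x + 4 * s = r₄ ^ 2 * (x - s ^ 2) →
      ∀ e₁ e₂, H < logHeight₁ x →
      |hh N (mk hE hN ((1 + s) ^ 2 * (x - 1)) (t * ((1 + s) ^ 2 * r₃)) e₁ +
          mk hE hN ((1 - s) ^ 2 * (x - 1)) (t * ((1 - s) ^ 2 * r₄)) e₂) -
        hh N (mk hE hN ((1 + s) ^ 2 * (x - 1)) (t * ((1 + s) ^ 2 * r₃)) e₁ -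
          mk hE hN ((1 - s) ^ 2 * (x - 1)) (t * ((1 - s) ^ 2 * r₄)) e₂)| ≤ C := by
  have hs1 : 1 + s ≠ 0 := fun h => h1 (by rw [show s = -1 by linarith]; norm_num)
  have hs2 : 1 - s ≠ 0 := fun h => h1 (by rw [show s = 1 by linarith]; norm_num)
  have hs3 : 1 + s ^ 2 ≠ 0 := by positivity
  obtain ⟨C0, hpar⟩ := parallelogram hE
  obtain ⟨C1, hmob⟩ := mob_sq (a := 4 * s) (b := 4 * s) (c := (1 + s) ^ 2) (d := -(1 - s) ^ 2)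
    (by
      have : 4 * s * -(1 - s) ^ 2 - 4 * s * (1 + s) ^ 2 = -(8 * s * (1 + s ^ 2)) := by ring
      rw [this]
      exact neg_ne_zero.2 (mul_ne_zero (mul_ne_zero (by norm_num) h0) hs3))
  obtain ⟨C3, hq3⟩ := height_mobius (a := (1 + s) ^ 2) (b := -(1 + s) ^ 2) (c := 0) (d := 1)
    (by simpa using hs1)
  obtain ⟨C4, hq4⟩ := height_mobius (a := (1 - s) ^ 2) (b := -(1 - s) ^ 2) (c := 0) (d := 1)
    (by simpa using hs2)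
  obtain ⟨C5, hrat⟩ := height_rat_le
    (C (2 * (1 + s ^ 2) * (1 - s ^ 2) ^ 2) * (1 + X ^ 2) * (1 - X) ^ 2)
    ((C ((1 + s) ^ 2) * X ^ 2 - C ((1 - s) ^ 2)) * (C ((1 + s) ^ 2) - C ((1 - s) ^ 2) * X ^ 2)) 4
    (by compute_degree) (by compute_degree)
  refine ⟨C0 + 2 * (C3 + C4) + 2 * (2 * C1 + C5), logHeight₁ (4 * s / (1 + s) ^ 2), ?_⟩
  intro N t x r₃ r₄ hN hx ht hcur h3 h4 e₁ e₂ hH
  have hNt : N * t ^ 2 ≠ 0 := mul_ne_zero hN (pow_ne_zero 2 ht)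
  have hx1 : x - 1 ≠ 0 := by
    intro h; apply hNt; rw [← hcur, h]; ring
  have hr3 : r₃ ≠ 0 := by
    rintro rfl
    have : x = 4 * s / (1 + s) ^ 2 := by
      rw [eq_div_iff (pow_ne_zero 2 hs1)]; linear_combination h3
    rw [this] at hH
    exact lt_irrefl _ hH
  obtain ⟨m, rfl⟩ : ∃ m, r₄ = m * r₃ := ⟨r₄ / r₃, by field_simp⟩
  have hxm : x * ((1 + s) ^ 2 * m ^ 2 + -(1 - s) ^ 2) = 4 * s * m ^ 2 + 4 * s := by
    linear_combination m ^ 2 * h3 - h4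
  obtain ⟨hK, hxh⟩ := hmob x m hxm
  have hne : (1 + s) ^ 2 * (x - 1) ≠ (1 - s) ^ 2 * (x - 1) := by
    intro h
    have : 4 * s * (x - 1) = 0 := by linear_combination h
    exact mul_ne_zero (mul_ne_zero (by norm_num) h0) hx1 this
  obtain ⟨k1, i1⟩ := id34 h0 hx1 hcur h3 hK hxm
  obtain ⟨k2, i2⟩ := id34 (m := -m) h0 hx1 hcur h3 (by rwa [neg_sq]) (by rw [neg_sq]; exact hxm)
  have b1 := hrat m (by simpa using k1)
  have b2 := hrat (-m) (by simpa using k2)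
  have hadd := hh_add_of_ne (hE := hE) (hN := hN) e₁ e₂ hne
  have hsub := hh_sub_of_ne (hE := hE) (hN := hN) e₁ e₂ hne
  have hP := hh_mk (hE := hE) (hN := hN) e₁
  have hQ := hh_mk (hE := hE) (hN := hN) e₂
  have hpq := hpar N hN (mk hE hN ((1 + s) ^ 2 * (x - 1)) (t * ((1 + s) ^ 2 * r₃)) e₁)
    (mk hE hN ((1 - s) ^ 2 * (x - 1)) (t * ((1 - s) ^ 2 * (m * r₃))) e₂)
  rw [i1] at hadd
  have hsub' : t * ((1 + s) ^ 2 * r₃) + t * ((1 - s) ^ 2 * (m * r₃)) =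
      t * ((1 + s) ^ 2 * r₃) - t * ((1 - s) ^ 2 * (-m * r₃)) := by ring
  rw [hsub', i2] at hsub
  have b1' : logHeight₁ ((2 * (1 + s ^ 2) * (1 - s ^ 2) ^ 2) * (1 + m ^ 2) * (1 - m) ^ 2 /
        (((1 + s) ^ 2 * m ^ 2 - (1 - s) ^ 2) * ((1 + s) ^ 2 - (1 - s) ^ 2 * m ^ 2))) ≤
      4 * logHeight₁ m + C5 := by
    simpa using b1
  have b2' : logHeight₁ ((2 * (1 + s ^ 2) * (1 - s ^ 2) ^ 2) * (1 + (-m) ^ 2) * (1 - -m) ^ 2 /
        (((1 + s) ^ 2 * (-m) ^ 2 - (1 - s) ^ 2) * ((1 + s) ^ 2 - (1 - s) ^ 2 * (-m) ^ 2))) ≤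
      4 * logHeight₁ m + C5 := by
    have := b2
    rw [logHeight₁_neg] at this
    simpa using this
  rw [← hadd] at b1'
  rw [← hsub] at b2'
  have c3 := hq3 x (by norm_num)
  have c4 := hq4 x (by norm_num)
  rw [zero_mul, zero_add, div_one, show (1 + s) ^ 2 * x + -(1 + s) ^ 2 = (1 + s) ^ 2 * (x - 1) by ring]
    at c3
  rw [zero_mul, zero_add, div_one, show (1 - s) ^ 2 * x + -(1 - s) ^ 2 = (1 - s) ^ 2 * (x - 1) by ring]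
    at c4
  refine core hpq (a := 2 * logHeight₁ x) ?_ ?_ ?_
  · rw [hP, hQ]
    rw [abs_le] at *
    constructor <;> linarith [c3.1, c3.2, c4.1, c4.2]
  · rw [abs_le] at hxh
    linarith [hxh.1, hxh.2]
  · rw [abs_le] at hxh
    linarith [hxh.1, hxh.2]

/-- the height of the point `F` -/
theorem hF {s : ℚ} (h1 : s ^ 2 ≠ 1) :
    ∃ C : ℝ, ∀ x : ℚ, x - 1 ≠ 0 →
      |logHeight₁ (x * ((1 + s) ^ 2 * x - 4 * s) / (4 * (x - 1))) - 2 * logHeight₁ x| ≤ C := by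
  have hs1 : 1 + s ≠ 0 := fun h => h1 (by rw [show s = -1 by linarith]; norm_num)
  have hs2 : 1 - s ≠ 0 := fun h => h1 (by rw [show s = 1 by linarith]; norm_num)
  obtain ⟨C, hC⟩ := height_quad (a := (1 + s) ^ 2) (b := -(4 * s)) (c := 0) (d := 0) (e := 4)
    (f := -4) (by
      have : ((1 + s) ^ 2 * -4 - 0 * 0) ^ 2 - ((1 + s) ^ 2 * 4 - -(4 * s) * 0) *
          (-(4 * s) * -4 - 0 * 4) = 16 * ((1 + s) ^ 2 * (1 - s) ^ 2) := by ring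
      rw [this]
      exact mul_ne_zero (by norm_num) (mul_ne_zero (pow_ne_zero 2 hs1) (pow_ne_zero 2 hs2)))
  refine ⟨C, fun x hx => ?_⟩
  have hd : (0 : ℚ) * x ^ 2 + 4 * x + -4 ≠ 0 := by
    have : (0 : ℚ) * x ^ 2 + 4 * x + -4 = 4 * (x - 1) := by ring
    rw [this]
    exact mul_ne_zero (by norm_num) hx
  have := hC x hd
  rwa [show (0 : ℚ) * x ^ 2 + 4 * x + -4 = 4 * (x - 1) by ring,
    show (1 + s) ^ 2 * x ^ 2 + -(4 * s) * x + 0 = x * ((1 + s) ^ 2 * x - 4 * s) by ring] at this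

theorem id13 {s n x N t : ℚ} (h0 : s ≠ 0) (hs2 : 1 - s ≠ 0) (hx0 : x ≠ 0) (hx1 : x - 1 ≠ 0)
    (hx4 : 4 - (s + 3) * x ≠ 0)
    (hcur : x * (x - 1) * (x - s ^ 2) = N * t ^ 2)
    (hK : (-1) * n ^ 2 + (1 + s) ^ 2 ≠ 0)
    (hxn : x * ((-1) * n ^ 2 + (1 + s) ^ 2) = -s ^ 2 * n ^ 2 + 4 * s) :
    (4 - s * n ^ 2) * ((1 + s) ^ 2 - n ^ 2) * ((s + 2) * n - 2) ^ 2 ≠ 0 ∧
    N * ((t - t * (n * ((1 + s) * x - 2) * ((1 + s) * x - 2 * s) / (8 * (x - 1) ^ 2))) /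
        (x - x * ((1 + s) ^ 2 * x - 4 * s) / (4 * (x - 1)))) ^ 2 - -(1 + s ^ 2) -
        x - x * ((1 + s) ^ 2 * x - 4 * s) / (4 * (x - 1)) =
      s * (2 * (1 + s) ^ 2 - (2 * s ^ 2 + 4 * s + 6) * n + (2 * s ^ 2 + 6 * s + 6) * n ^ 2 -
        (s ^ 2 + 2 * s + 2) * n ^ 3) ^ 2 /
        ((4 - s * n ^ 2) * ((1 + s) ^ 2 - n ^ 2) * ((s + 2) * n - 2) ^ 2) := by
  have hK' : (1 + s) ^ 2 - n ^ 2 ≠ 0 := by
    intro h; apply hK; rw [← h]; ring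
  have a1 : x = s * (4 - s * n ^ 2) / ((1 + s) ^ 2 - n ^ 2) := by
    rw [eq_div_iff hK']; linear_combination hxn
  have a2 : x - 1 = (1 - s) * ((1 + s) * n ^ 2 - (1 - s)) / ((1 + s) ^ 2 - n ^ 2) := by
    rw [eq_div_iff hK']; linear_combination hxn
  have a4 : 4 - (s + 3) * x = (1 - s) * ((2 - (s + 2) * n) * (2 + (s + 2) * n)) /
      ((1 + s) ^ 2 - n ^ 2) := by
    rw [eq_div_iff hK']; linear_combination -(s + 3) * hxn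
  have hL : 4 - s * n ^ 2 ≠ 0 := by
    intro h; apply hx0; rw [a1, h, mul_zero, zero_div]
  have hM : (1 + s) * n ^ 2 - (1 - s) ≠ 0 := by
    intro h; apply hx1; rw [a2, h, mul_zero, zero_div]
  have hR : 2 - (s + 2) * n ≠ 0 := by
    intro h; apply hx4; rw [a4, h, zero_mul, mul_zero, zero_div]
  have hS : 2 + (s + 2) * n ≠ 0 := by
    intro h; apply hx4; rw [a4, h, mul_zero, mul_zero, zero_div]
  have hR' : (s + 2) * n - 2 ≠ 0 := by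
    intro h; apply hR; linear_combination -h
  refine ⟨mul_ne_zero (mul_ne_zero hL hK') (pow_ne_zero 2 hR'), ?_⟩
  have e0 : x - x * ((1 + s) ^ 2 * x - 4 * s) / (4 * (x - 1)) =
      -(x * (1 - s) * (4 - (s + 3) * x)) / (4 * (x - 1)) := by
    field_simp
    ring
  have e1 : N * ((t - t * (n * ((1 + s) * x - 2) * ((1 + s) * x - 2 * s) / (8 * (x - 1) ^ 2))) /
        (x - x * ((1 + s) ^ 2 * x - 4 * s) / (4 * (x - 1)))) ^ 2 =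
      (x - s ^ 2) * (8 * (x - 1) ^ 2 - n * ((1 + s) * x - 2) * ((1 + s) * x - 2 * s)) ^ 2 /
        (4 * (x - 1) * x * (1 - s) ^ 2 * (4 - (s + 3) * x) ^ 2) := by
    rw [e0]
    have e2 : t - t * (n * ((1 + s) * x - 2) * ((1 + s) * x - 2 * s) / (8 * (x - 1) ^ 2)) =
        t * (8 * (x - 1) ^ 2 - n * ((1 + s) * x - 2) * ((1 + s) * x - 2 * s)) /
          (8 * (x - 1) ^ 2) := by
      field_simp
    rw [e2]
    have e3 : N * (t * (8 * (x - 1) ^ 2 - n * ((1 + s) * x - 2) * ((1 + s) * x - 2 * s)) /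
          (8 * (x - 1) ^ 2) / (-(x * (1 - s) * (4 - (s + 3) * x)) / (4 * (x - 1)))) ^ 2 =
        (N * t ^ 2) * (8 * (x - 1) ^ 2 - n * ((1 + s) * x - 2) * ((1 + s) * x - 2 * s)) ^ 2 /
          (4 * (x - 1) ^ 2 * x ^ 2 * (1 - s) ^ 2 * (4 - (s + 3) * x) ^ 2) := by
      field_simp
      ring
    rw [e3, ← hcur]
    field_simp
  have b1 : (1 + s) * x - 2 = (1 - s) * ((s ^ 2 + 2 * s + 2) * n ^ 2 - 2 * (1 + s)) /
      ((1 + s) ^ 2 - n ^ 2) := by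
    rw [eq_div_iff hK']; linear_combination (1 + s) * hxn
  have b2 : (1 + s) * x - 2 * s = s * (1 - s) * ((s + 2) * n ^ 2 + 2 * (1 + s)) /
      ((1 + s) ^ 2 - n ^ 2) := by
    rw [eq_div_iff hK']; linear_combination (1 + s) * hxn
  have b3 : x - s ^ 2 = s * (1 - s) * (s ^ 2 + 3 * s + 4) / ((1 + s) ^ 2 - n ^ 2) := by
    rw [eq_div_iff hK']; linear_combination hxn
  have b4 : (1 + s) ^ 2 * x - 4 * s = s * (1 - s) * (s ^ 2 + 3 * s + 4) * n ^ 2 /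
      ((1 + s) ^ 2 - n ^ 2) := by
    rw [eq_div_iff hK']; linear_combination (1 + s) ^ 2 * hxn
  rw [e1, a4, b1, b2, b3, b4, a2, a1, show ((s + 2) * n - 2) ^ 2 = (2 - (s + 2) * n) ^ 2 by ring]
  generalize hKd : (1 + s) ^ 2 - n ^ 2 = K at hK' ⊢
  generalize hLd : 4 - s * n ^ 2 = L at hL ⊢
  generalize hMd : (1 + s) * n ^ 2 - (1 - s) = M at hM ⊢
  generalize hRd : 2 - (s + 2) * n = R at hR ⊢
  generalize hSd : 2 + (s + 2) * n = S at hS ⊢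
  generalize hTd : 1 - s = T at hs2 ⊢
  field_simp
  rw [← hKd, ← hLd, ← hMd, ← hRd, ← hSd]
  ring

theorem pair_13 {s : ℚ} (h0 : s ≠ 0) (h1 : s ^ 2 ≠ 1)
    (hE : s ^ 2 * ((-(1 + s ^ 2)) ^ 2 - 4 * s ^ 2) ≠ 0) :
    ∃ C H : ℝ, ∀ (N t x r₃ : ℚ) (hN : N ≠ 0), x ≠ 0 → x ≠ 1 → t ≠ 0 →
      x * (x - 1) * (x - s ^ 2) = N * t ^ 2 →
      (1 + s) ^ 2 * x - 4 * s = r₃ ^ 2 * (x - s ^ 2) →
      ∀ e₁ e₂, H < logHeight₁ x →
      |hh N (mk hE hN x t e₁ + mk hE hN (x * ((1 + s) ^ 2 * x - 4 * s) / (4 * (x - 1)))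
          (t * (r₃ * ((1 + s) * x - 2) * ((1 + s) * x - 2 * s) / (8 * (x - 1) ^ 2))) e₂) -
        hh N (mk hE hN x t e₁ - mk hE hN (x * ((1 + s) ^ 2 * x - 4 * s) / (4 * (x - 1)))
          (t * (r₃ * ((1 + s) * x - 2) * ((1 + s) * x - 2 * s) / (8 * (x - 1) ^ 2))) e₂)| ≤ C := by
  have hs2 : 1 - s ≠ 0 := fun h => h1 (by rw [show s = 1 by linarith]; norm_num)
  have hs3 : s ^ 2 + 3 * s + 4 ≠ 0 := by nlinarith [sq_nonneg (2 * s + 3)]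
  obtain ⟨C0, hpar⟩ := parallelogram hE
  obtain ⟨C1, hmob⟩ := mob_sq (a := -s ^ 2) (b := 4 * s) (c := -1) (d := (1 + s) ^ 2)
    (by
      have : -s ^ 2 * (1 + s) ^ 2 - 4 * s * -1 = s * ((1 - s) * (s ^ 2 + 3 * s + 4)) := by ring
      rw [this]
      exact mul_ne_zero h0 (mul_ne_zero hs2 hs3))
  obtain ⟨C3, hq⟩ := hF h1
  obtain ⟨C5, hrat⟩ := height_rat_le
    (C s * (C (2 * (1 + s) ^ 2) - C (2 * s ^ 2 + 4 * s + 6) * X + C (2 * s ^ 2 + 6 * s + 6) * X ^ 2 -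
        C (s ^ 2 + 2 * s + 2) * X ^ 3) ^ 2)
    ((4 - C s * X ^ 2) * (C ((1 + s) ^ 2) - X ^ 2) * (C (s + 2) * X - 2) ^ 2) 6
    (by compute_degree) (by compute_degree)
  refine ⟨C0 + 2 * C3 + 2 * (3 * C1 + C5), logHeight₁ (4 / (s + 3)), ?_⟩
  intro N t x r₃ hN hx hx' ht hcur h3 e₁ e₂ hH
  have hx1 : x - 1 ≠ 0 := sub_ne_zero.2 hx'
  have hx4 : 4 - (s + 3) * x ≠ 0 := by
    intro h
    have h3 : s + 3 ≠ 0 := by
      intro h3; rw [h3] at h; norm_num at h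
    have : x = 4 / (s + 3) := by
      rw [eq_div_iff h3]; linear_combination -h
    rw [this] at hH
    exact lt_irrefl _ hH
  have hxn : x * ((-1) * r₃ ^ 2 + (1 + s) ^ 2) = -s ^ 2 * r₃ ^ 2 + 4 * s := by
    linear_combination h3
  obtain ⟨hK, hxh⟩ := hmob x r₃ hxn
  have hne : x ≠ x * ((1 + s) ^ 2 * x - 4 * s) / (4 * (x - 1)) := by
    intro h
    rw [eq_div_iff (mul_ne_zero (by norm_num) hx1)] at h
    have : x * (1 - s) * (4 - (s + 3) * x) = 0 := by linear_combination -h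
    exact mul_ne_zero (mul_ne_zero hx hs2) hx4 this
  obtain ⟨k1, i1⟩ := id13 h0 hs2 hx hx1 hx4 hcur hK hxn
  obtain ⟨k2, i2⟩ := id13 (n := -r₃) h0 hs2 hx hx1 hx4 hcur (by rwa [neg_sq])
    (by rw [neg_sq]; exact hxn)
  have b1 := hrat r₃ (by simpa using k1)
  have b2 := hrat (-r₃) (by simpa using k2)
  have hadd := hh_add_of_ne (hE := hE) (hN := hN) e₁ e₂ hne
  have hsub := hh_sub_of_ne (hE := hE) (hN := hN) e₁ e₂ hne
  have hP := hh_mk (hE := hE) (hN := hN) e₁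
  have hQ := hh_mk (hE := hE) (hN := hN) e₂
  have hpq := hpar N hN (mk hE hN x t e₁)
    (mk hE hN (x * ((1 + s) ^ 2 * x - 4 * s) / (4 * (x - 1)))
      (t * (r₃ * ((1 + s) * x - 2) * ((1 + s) * x - 2 * s) / (8 * (x - 1) ^ 2))) e₂)
  rw [i1] at hadd
  have hsub' : t + t * (r₃ * ((1 + s) * x - 2) * ((1 + s) * x - 2 * s) / (8 * (x - 1) ^ 2)) =
      t - t * (-r₃ * ((1 + s) * x - 2) * ((1 + s) * x - 2 * s) / (8 * (x - 1) ^ 2)) := by ring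
  rw [hsub', i2] at hsub
  have b1' : logHeight₁ (s * (2 * (1 + s) ^ 2 - (2 * s ^ 2 + 4 * s + 6) * r₃ +
        (2 * s ^ 2 + 6 * s + 6) * r₃ ^ 2 - (s ^ 2 + 2 * s + 2) * r₃ ^ 3) ^ 2 /
        ((4 - s * r₃ ^ 2) * ((1 + s) ^ 2 - r₃ ^ 2) * ((s + 2) * r₃ - 2) ^ 2)) ≤
      6 * logHeight₁ r₃ + C5 := by
    simpa using b1
  have b2' : logHeight₁ (s * (2 * (1 + s) ^ 2 - (2 * s ^ 2 + 4 * s + 6) * -r₃ +
        (2 * s ^ 2 + 6 * s + 6) * (-r₃) ^ 2 - (s ^ 2 + 2 * s + 2) * (-r₃) ^ 3) ^ 2 /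
        ((4 - s * (-r₃) ^ 2) * ((1 + s) ^ 2 - (-r₃) ^ 2) * ((s + 2) * -r₃ - 2) ^ 2)) ≤
      6 * logHeight₁ r₃ + C5 := by
    have := b2
    rw [logHeight₁_neg] at this
    simpa using this
  rw [← hadd] at b1'
  rw [← hsub] at b2'
  have c3 := hq x hx1
  refine core hpq (a := 3 * logHeight₁ x) ?_ ?_ ?_
  · rw [hP, hQ]
    rw [abs_le] at *
    constructor <;> linarith [c3.1, c3.2]
  · rw [abs_le] at hxh
    linarith [hxh.1, hxh.2]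
  · rw [abs_le] at hxh
    linarith [hxh.1, hxh.2]

theorem id23 {s m x N t r : ℚ} (hs1 : 1 + s ≠ 0) (hx0 : x ≠ 0) (hx1 : x - 1 ≠ 0)
    (hcub : x ^ 2 * ((1 + s) ^ 2 * x - 4 * s) - 4 * (x - 1) ^ 2 ≠ 0)
    (hcur : x * (x - 1) * (x - s ^ 2) = N * t ^ 2)
    (h2 : 1 - (1 - s ^ 2) * x = r ^ 2 * (x - s ^ 2))
    (hK : (1 - s ^ 2) * m ^ 2 + (1 + s) ^ 2 ≠ 0)
    (hxm : x * ((1 - s ^ 2) * m ^ 2 + (1 + s) ^ 2) = 1 * m ^ 2 + 4 * s) :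
    (2 * (1 - s) ^ 2 - (6 * s ^ 2 - 4 * s + 2) * m + (6 * s ^ 2 - 6 * s + 2) * m ^ 2 -
      (2 * s ^ 2 - 2 * s + 1) * m ^ 3) ^ 2 ≠ 0 ∧
    N * ((t * (r / x ^ 2) -
        t * (m * r * ((1 + s) * x - 2) * ((1 + s) * x - 2 * s) / (8 * (x - 1) ^ 2))) /
        ((x - 1) / x - x * ((1 + s) ^ 2 * x - 4 * s) / (4 * (x - 1)))) ^ 2 - -(1 + s ^ 2) -
        (x - 1) / x - x * ((1 + s) ^ 2 * x - 4 * s) / (4 * (x - 1)) =
      (m ^ 2 + 4 * s) * (s ^ 2 * m ^ 2 - (1 - s) ^ 2) * ((2 * s - 1) * m - 2 * s) ^ 2 /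
        (2 * (1 - s) ^ 2 - (6 * s ^ 2 - 4 * s + 2) * m + (6 * s ^ 2 - 6 * s + 2) * m ^ 2 -
          (2 * s ^ 2 - 2 * s + 1) * m ^ 3) ^ 2 := by
  have a1 : x = (m ^ 2 + 4 * s) / ((1 - s ^ 2) * m ^ 2 + (1 + s) ^ 2) := by
    rw [eq_div_iff hK]; linear_combination hxm
  have a2 : x - 1 = (s ^ 2 * m ^ 2 - (1 - s) ^ 2) / ((1 - s ^ 2) * m ^ 2 + (1 + s) ^ 2) := by
    rw [eq_div_iff hK]; linear_combination hxm
  have a3 : (1 + s) ^ 2 * x - 4 * s = (1 + s) * (4 * s ^ 2 - 3 * s + 1) * m ^ 2 /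
      ((1 - s ^ 2) * m ^ 2 + (1 + s) ^ 2) := by
    rw [eq_div_iff hK]; linear_combination (1 + s) ^ 2 * hxm
  have a4 : x ^ 2 * ((1 + s) ^ 2 * x - 4 * s) - 4 * (x - 1) ^ 2 = -((1 + s) ^ 2 *
      ((2 * (1 - s) ^ 2 + (6 * s ^ 2 - 4 * s + 2) * m + (6 * s ^ 2 - 6 * s + 2) * m ^ 2 +
      (2 * s ^ 2 - 2 * s + 1) * m ^ 3) *
      (2 * (1 - s) ^ 2 - (6 * s ^ 2 - 4 * s + 2) * m + (6 * s ^ 2 - 6 * s + 2) * m ^ 2 -
      (2 * s ^ 2 - 2 * s + 1) * m ^ 3))) / ((1 - s ^ 2) * m ^ 2 + (1 + s) ^ 2) ^ 3 := by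
    rw [a3, a2, a1]
    generalize hKd : (1 - s ^ 2) * m ^ 2 + (1 + s) ^ 2 = K at hK ⊢
    field_simp
    rw [← hKd]
    ring
  have a5 : 1 - (1 - s ^ 2) * x = (1 + s) * (4 * s ^ 2 - 3 * s + 1) /
      ((1 - s ^ 2) * m ^ 2 + (1 + s) ^ 2) := by
    rw [eq_div_iff hK]; linear_combination -(1 - s ^ 2) * hxm
  have hc1 : 2 * (1 - s) ^ 2 + (6 * s ^ 2 - 4 * s + 2) * m + (6 * s ^ 2 - 6 * s + 2) * m ^ 2 +
      (2 * s ^ 2 - 2 * s + 1) * m ^ 3 ≠ 0 := by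
    intro h; apply hcub; rw [a4, h, zero_mul, mul_zero, neg_zero, zero_div]
  have hc2 : 2 * (1 - s) ^ 2 - (6 * s ^ 2 - 4 * s + 2) * m + (6 * s ^ 2 - 6 * s + 2) * m ^ 2 -
      (2 * s ^ 2 - 2 * s + 1) * m ^ 3 ≠ 0 := by
    intro h; apply hcub; rw [a4, h, mul_zero, mul_zero, neg_zero, zero_div]
  have hL : m ^ 2 + 4 * s ≠ 0 := by
    intro h; apply hx0; rw [a1, h, zero_div]
  have hM : s ^ 2 * m ^ 2 - (1 - s) ^ 2 ≠ 0 := by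
    intro h; apply hx1; rw [a2, h, zero_div]
  refine ⟨pow_ne_zero 2 hc2, ?_⟩
  have e0 : (x - 1) / x - x * ((1 + s) ^ 2 * x - 4 * s) / (4 * (x - 1)) =
      -(x ^ 2 * ((1 + s) ^ 2 * x - 4 * s) - 4 * (x - 1) ^ 2) / (4 * x * (x - 1)) := by
    field_simp
    ring
  have e1 : N * ((t * (r / x ^ 2) -
        t * (m * r * ((1 + s) * x - 2) * ((1 + s) * x - 2 * s) / (8 * (x - 1) ^ 2))) /
        ((x - 1) / x - x * ((1 + s) ^ 2 * x - 4 * s) / (4 * (x - 1)))) ^ 2 =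
      (1 - (1 - s ^ 2) * x) * (8 * (x - 1) ^ 2 -
        m * x ^ 2 * ((1 + s) * x - 2) * ((1 + s) * x - 2 * s)) ^ 2 /
        (4 * (x - 1) * x * (x ^ 2 * ((1 + s) ^ 2 * x - 4 * s) - 4 * (x - 1) ^ 2) ^ 2) := by
    rw [e0]
    have e2 : t * (r / x ^ 2) -
        t * (m * r * ((1 + s) * x - 2) * ((1 + s) * x - 2 * s) / (8 * (x - 1) ^ 2)) =
        t * r * (8 * (x - 1) ^ 2 - m * x ^ 2 * ((1 + s) * x - 2) * ((1 + s) * x - 2 * s)) /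
          (8 * (x - 1) ^ 2 * x ^ 2) := by
      field_simp
    rw [e2]
    generalize x ^ 2 * ((1 + s) ^ 2 * x - 4 * s) - 4 * (x - 1) ^ 2 = Z at hcub ⊢
    have e3 : N * (t * r * (8 * (x - 1) ^ 2 -
          m * x ^ 2 * ((1 + s) * x - 2) * ((1 + s) * x - 2 * s)) /
          (8 * (x - 1) ^ 2 * x ^ 2) / (-Z / (4 * x * (x - 1)))) ^ 2 =
        (N * t ^ 2) * r ^ 2 *
          (8 * (x - 1) ^ 2 - m * x ^ 2 * ((1 + s) * x - 2) * ((1 + s) * x - 2 * s)) ^ 2 /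
          (4 * (x - 1) ^ 2 * x ^ 2 * Z ^ 2) := by
      field_simp
      ring
    rw [e3, ← hcur, h2]
    field_simp
  have b1 : (1 + s) * x - 2 = (1 + s) * ((2 * s - 1) * m ^ 2 + 2 * s - 2) /
      ((1 - s ^ 2) * m ^ 2 + (1 + s) ^ 2) := by
    rw [eq_div_iff hK]; linear_combination (1 + s) * hxm
  have b2 : (1 + s) * x - 2 * s = (1 + s) * ((2 * s ^ 2 - 2 * s + 1) * m ^ 2 + 2 * s * (1 - s)) /
      ((1 - s ^ 2) * m ^ 2 + (1 + s) ^ 2) := by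
    rw [eq_div_iff hK]; linear_combination (1 + s) * hxm
  rw [e1, a4, a5, b1, b2, a3, a2, a1]
  generalize hKd : (1 - s ^ 2) * m ^ 2 + (1 + s) ^ 2 = K at hK ⊢
  generalize hLd : m ^ 2 + 4 * s = L at hL ⊢
  generalize hMd : s ^ 2 * m ^ 2 - (1 - s) ^ 2 = M at hM ⊢
  generalize hc1d : 2 * (1 - s) ^ 2 + (6 * s ^ 2 - 4 * s + 2) * m + (6 * s ^ 2 - 6 * s + 2) * m ^ 2 +
      (2 * s ^ 2 - 2 * s + 1) * m ^ 3 = U at hc1 ⊢
  generalize hc2d : 2 * (1 - s) ^ 2 - (6 * s ^ 2 - 4 * s + 2) * m + (6 * s ^ 2 - 6 * s + 2) * m ^ 2 -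
      (2 * s ^ 2 - 2 * s + 1) * m ^ 3 = V at hc2 ⊢
  field_simp
  rw [← hKd, ← hLd, ← hMd, ← hc1d, ← hc2d]
  ring

/-- the heights of the roots of a nonzero polynomial are bounded -/
theorem root_bound (p : Polynomial ℚ) (hp : p ≠ 0) :
    ∃ H : ℝ, ∀ x : ℚ, p.eval x = 0 → logHeight₁ x ≤ H := by
  refine ⟨∑ y ∈ p.roots.toFinset, |logHeight₁ y|, fun x hx => ?_⟩
  have hm : x ∈ p.roots.toFinset := by
    rw [Multiset.mem_toFinset, mem_roots hp]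
    exact hx
  refine (le_abs_self _).trans ?_
  exact Finset.single_le_sum (f := fun y : ℚ => |logHeight₁ y|) (fun _ _ => abs_nonneg _) hm

theorem pair_23 {s : ℚ} (_h0 : s ≠ 0) (h1 : s ^ 2 ≠ 1)
    (hE : s ^ 2 * ((-(1 + s ^ 2)) ^ 2 - 4 * s ^ 2) ≠ 0) :
    ∃ C H : ℝ, ∀ (N t x r₂ r₃ : ℚ) (hN : N ≠ 0), x ≠ 0 → x ≠ 1 → t ≠ 0 →
      x * (x - 1) * (x - s ^ 2) = N * t ^ 2 →
      1 - (1 - s ^ 2) * x = r₂ ^ 2 * (x - s ^ 2) →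
      (1 + s) ^ 2 * x - 4 * s = r₃ ^ 2 * (x - s ^ 2) →
      ∀ e₁ e₂, H < logHeight₁ x →
      |hh N (mk hE hN ((x - 1) / x) (t * (r₂ / x ^ 2)) e₁ +
          mk hE hN (x * ((1 + s) ^ 2 * x - 4 * s) / (4 * (x - 1)))
          (t * (r₃ * ((1 + s) * x - 2) * ((1 + s) * x - 2 * s) / (8 * (x - 1) ^ 2))) e₂) -
        hh N (mk hE hN ((x - 1) / x) (t * (r₂ / x ^ 2)) e₁ -
          mk hE hN (x * ((1 + s) ^ 2 * x - 4 * s) / (4 * (x - 1)))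
          (t * (r₃ * ((1 + s) * x - 2) * ((1 + s) * x - 2 * s) / (8 * (x - 1) ^ 2))) e₂)| ≤ C := by
  have hs1 : 1 + s ≠ 0 := fun h => h1 (by rw [show s = -1 by linarith]; norm_num)
  have hs3 : 4 * s ^ 2 - 3 * s + 1 ≠ 0 := by nlinarith [sq_nonneg (8 * s - 3)]
  have hss : 1 - s ^ 2 ≠ 0 := fun h => h1 (by linear_combination -h)
  obtain ⟨C0, hpar⟩ := parallelogram hE
  obtain ⟨C1, hmob⟩ := mob_sq (a := 1) (b := 4 * s) (c := 1 - s ^ 2) (d := (1 + s) ^ 2)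
    (by
      have : 1 * (1 + s) ^ 2 - 4 * s * (1 - s ^ 2) = (1 + s) * (4 * s ^ 2 - 3 * s + 1) := by ring
      rw [this]
      exact mul_ne_zero hs1 hs3)
  obtain ⟨C3, hq⟩ := hF h1
  obtain ⟨C4, hq2⟩ := height_mobius (a := 1) (b := -1) (c := 1) (d := 0) (by norm_num)
  obtain ⟨C5, hrat⟩ := height_rat_le
    ((X ^ 2 + C (4 * s)) * (C (s ^ 2) * X ^ 2 - C ((1 - s) ^ 2)) * (C (2 * s - 1) * X - C (2 * s)) ^ 2)
    ((C (2 * (1 - s) ^ 2) - C (6 * s ^ 2 - 4 * s + 2) * X + C (6 * s ^ 2 - 6 * s + 2) * X ^ 2 -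
        C (2 * s ^ 2 - 2 * s + 1) * X ^ 3) ^ 2) 6
    (by compute_degree) (by compute_degree)
  obtain ⟨H1, hH1⟩ := root_bound (X ^ 2 * (C ((1 + s) ^ 2) * X - C (4 * s)) - 4 * (X - 1) ^ 2) (by
    intro h
    have := congrArg (Polynomial.eval 0) h
    simp at this)
  refine ⟨C0 + 2 * (C3 + C4) + 2 * (3 * C1 + C5), max H1 (logHeight₁ (1 / (1 - s ^ 2))), ?_⟩
  intro N t x r₂ r₃ hN hx hx' ht hcur h2 h3 e₁ e₂ hH
  have hx1 : x - 1 ≠ 0 := sub_ne_zero.2 hx'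
  have hcub : x ^ 2 * ((1 + s) ^ 2 * x - 4 * s) - 4 * (x - 1) ^ 2 ≠ 0 := by
    intro h
    have := hH1 x (by simpa using h)
    exact absurd ((le_max_left _ _).trans_lt hH) (not_lt.2 this)
  have hr2 : r₂ ≠ 0 := by
    rintro rfl
    have : x = 1 / (1 - s ^ 2) := by
      rw [eq_div_iff hss]; linear_combination -h2
    rw [this] at hH
    exact absurd ((le_max_right _ _).trans_lt hH) (lt_irrefl _)
  obtain ⟨m, rfl⟩ : ∃ m, r₃ = m * r₂ := ⟨r₃ / r₂, by field_simp⟩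
  have hxm : x * ((1 - s ^ 2) * m ^ 2 + (1 + s) ^ 2) = 1 * m ^ 2 + 4 * s := by
    linear_combination h3 - m ^ 2 * h2
  obtain ⟨hK, hxh⟩ := hmob x m hxm
  have hne : (x - 1) / x ≠ x * ((1 + s) ^ 2 * x - 4 * s) / (4 * (x - 1)) := by
    intro h
    rw [div_eq_div_iff hx (mul_ne_zero (by norm_num) hx1)] at h
    apply hcub
    linear_combination -h
  obtain ⟨k1, i1⟩ := id23 hs1 hx hx1 hcub hcur h2 hK hxm
  obtain ⟨k2, i2⟩ := id23 (m := -m) hs1 hx hx1 hcub hcur h2 (by rwa [neg_sq])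
    (by rw [neg_sq]; exact hxm)
  have b1 := hrat m (by simpa using k1)
  have b2 := hrat (-m) (by simpa using k2)
  have hadd := hh_add_of_ne (hE := hE) (hN := hN) e₁ e₂ hne
  have hsub := hh_sub_of_ne (hE := hE) (hN := hN) e₁ e₂ hne
  have hP := hh_mk (hE := hE) (hN := hN) e₁
  have hQ := hh_mk (hE := hE) (hN := hN) e₂
  have hpq := hpar N hN (mk hE hN ((x - 1) / x) (t * (r₂ / x ^ 2)) e₁)
    (mk hE hN (x * ((1 + s) ^ 2 * x - 4 * s) / (4 * (x - 1)))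
      (t * (m * r₂ * ((1 + s) * x - 2) * ((1 + s) * x - 2 * s) / (8 * (x - 1) ^ 2))) e₂)
  rw [i1] at hadd
  have hsub' : t * (r₂ / x ^ 2) +
      t * (m * r₂ * ((1 + s) * x - 2) * ((1 + s) * x - 2 * s) / (8 * (x - 1) ^ 2)) =
      t * (r₂ / x ^ 2) -
      t * (-m * r₂ * ((1 + s) * x - 2) * ((1 + s) * x - 2 * s) / (8 * (x - 1) ^ 2)) := by ring
  rw [hsub', i2] at hsub
  have b1' : logHeight₁ ((m ^ 2 + 4 * s) * (s ^ 2 * m ^ 2 - (1 - s) ^ 2) *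
        ((2 * s - 1) * m - 2 * s) ^ 2 /
        (2 * (1 - s) ^ 2 - (6 * s ^ 2 - 4 * s + 2) * m + (6 * s ^ 2 - 6 * s + 2) * m ^ 2 -
          (2 * s ^ 2 - 2 * s + 1) * m ^ 3) ^ 2) ≤
      6 * logHeight₁ m + C5 := by
    simpa using b1
  have b2' : logHeight₁ (((-m) ^ 2 + 4 * s) * (s ^ 2 * (-m) ^ 2 - (1 - s) ^ 2) *
        ((2 * s - 1) * -m - 2 * s) ^ 2 /
        (2 * (1 - s) ^ 2 - (6 * s ^ 2 - 4 * s + 2) * -m + (6 * s ^ 2 - 6 * s + 2) * (-m) ^ 2 -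
          (2 * s ^ 2 - 2 * s + 1) * (-m) ^ 3) ^ 2) ≤
      6 * logHeight₁ m + C5 := by
    have := b2
    rw [logHeight₁_neg] at this
    simpa using this
  rw [← hadd] at b1'
  rw [← hsub] at b2'
  have c3 := hq x hx1
  have c4 := hq2 x (by simpa using hx)
  rw [show (1 : ℚ) * x + -1 = x - 1 by ring, show (1 : ℚ) * x + 0 = x by ring] at c4
  refine core hpq (a := 3 * logHeight₁ x) ?_ ?_ ?_
  · rw [hP, hQ]
    rw [abs_le] at *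
    constructor <;> linarith [c3.1, c3.2, c4.1, c4.2]
  · rw [abs_le] at hxh
    linarith [hxh.1, hxh.2]
  · rw [abs_le] at hxh
    linarith [hxh.1, hxh.2]

end H33.TwJ
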